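import Pool.Agent.Helper14.PG.Val

/-!
# PH-Count: the number of bad coefficient vectors modulo `r`, `m ∣ r - 1`

PROOF.  Sum over the vectors `c'` with `c' s₀ = 0` of the number of `t` with `Function.update c' s₀ t ∈ B`; each is at most
`(1 - 1 / (4 m)) r` by `value_set` of PG/Val.lean, for `T` the image of these `t` under `t ↦ t * v s₀`, and
`h j = ∑ s ≠ s₀, if m - k s = j then c' s * v s else 0` (note `m - k s < m`, and `m - k s₀ = 0`).
-/

set_option autoImplicit false

namespace Pool.Agent.Helper14.PH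

open Finset Pool.Agent.Helper14.PG

theorem count_bad1 {r m : ℕ} [Fact r.Prime] {ι : Type} [Fintype ι] [DecidableEq ι] (hm : 2 ≤ m)
    (hr : 3 ≤ r) (hdvd : m ∣ r - 1) (k : ι → ℕ) (hk : ∀ s, 1 ≤ k s ∧ k s ≤ m)
    (v : ι → ZMod r) (s₀ : ι) (hs₀ : k s₀ = m) (hv₀ : v s₀ ≠ 0) (B : Finset (ι → ZMod r))
    (hB : ∀ c ∈ B, ∃ Z : ZMod r, Z ^ m + ∑ s, c s * v s * Z ^ (m - k s) = 0) :
    (#B : ℝ) ≤ (1 - 1 / (4 * m)) * (r : ℝ) ^ Fintype.card ι := by
  classical
  have hrp : r.Prime := Fact.out
  let g : (ι → ZMod r) → (ι → ZMod r) := fun c => Function.update c s₀ 0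
  let C0 : Finset (ι → ZMod r) := univ.filter fun c => c s₀ = 0
  have hg : ∀ c, g c ∈ C0 := fun c => mem_filter.2 ⟨mem_univ _, Function.update_self _ _ _⟩
  have hcard : r * #C0 ≤ r ^ Fintype.card ι := by
    have h1 := Finset.card_eq_sum_card_fiberwise (s := (univ : Finset (ι → ZMod r))) (t := C0)
      (f := g) (fun c _ => mem_coe.2 (hg c))
    have h2 : ∀ c' ∈ C0, r ≤ #(univ.filter fun c => g c = c') := by
      intro c' hc'
      have h3 : (univ.image fun t : ZMod r => Function.update c' s₀ t) ⊆
          univ.filter fun c => g c = c' := by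
        intro c hc
        obtain ⟨t, -, rfl⟩ := mem_image.1 hc
        refine mem_filter.2 ⟨mem_univ _, ?_⟩
        show Function.update (Function.update c' s₀ t) s₀ 0 = c'
        rw [Function.update_idem]
        have h4 : (0 : ZMod r) = c' s₀ := ((mem_filter.1 hc').2).symm
        rw [h4, Function.update_eq_self]
      have h4 : #(univ.image fun t : ZMod r => Function.update c' s₀ t) = r := by
        rw [card_image_of_injective _ (Function.update_injective c' s₀), card_univ, ZMod.card]
      calc r = #(univ.image fun t : ZMod r => Function.update c' s₀ t) := h4.symm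
        _ ≤ _ := card_le_card h3
    have h5 := sum_le_sum h2
    rw [sum_const, smul_eq_mul, ← h1, card_univ, Fintype.card_fun, ZMod.card, mul_comm] at h5
    exact h5
  have hB1 : (#B : ℝ) ≤ #C0 * ((1 - 1 / (4 * m)) * r) := by
    have h1 := Finset.card_eq_sum_card_fiberwise (s := B) (t := C0) (f := g)
      (fun c _ => mem_coe.2 (hg c))
    rw [h1]
    push_cast
    rw [← nsmul_eq_mul]
    refine sum_le_card_nsmul _ _ _ fun c' _ => ?_
    let T : Finset (ZMod r) := (B.filter fun c => g c = c').image fun c => c s₀ * v s₀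
    have hT1 : #T = #(B.filter fun c => g c = c') := by
      refine card_image_of_injOn ?_
      intro c hc d hd hcd
      have hc1 := (mem_filter.1 (mem_coe.1 hc)).2
      have hd1 := (mem_filter.1 (mem_coe.1 hd)).2
      funext s
      by_cases hs : s = s₀
      · rw [hs]
        exact mul_right_cancel₀ hv₀ hcd
      · have h2 : g c s = g d s := by rw [hc1, hd1]
        have h3 : g c s = c s := Function.update_of_ne hs _ _
        have h4 : g d s = d s := Function.update_of_ne hs _ _
        rw [← h3, ← h4, h2]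
    rw [← hT1]
    refine value_set hm hr hdvd
      (fun j : Fin m => ∑ s ∈ univ.filter (fun s => s ≠ s₀ ∧ m - k s = (j : ℕ)), c' s * v s) T ?_
    intro t ht
    obtain ⟨c, hc, rfl⟩ := mem_image.1 ht
    obtain ⟨hcB, hgc⟩ := mem_filter.1 hc
    obtain ⟨Z, hZ⟩ := hB c hcB
    refine ⟨Z, ?_⟩
    rw [← hZ, add_assoc]
    congr 1
    rw [← Finset.add_sum_erase univ _ (mem_univ s₀), hs₀, Nat.sub_self, pow_zero, mul_one, add_comm]
    congr 1
    have h2 : ∀ j : Fin m, (∑ s ∈ univ.filter (fun s => s ≠ s₀ ∧ m - k s = (j : ℕ)), c' s * v s) *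
        Z ^ (j : ℕ) = ∑ s ∈ (univ.erase s₀).filter (fun s => (⟨m - k s, by
          have := (hk s).1
          omega⟩ : Fin m) = j), c s * v s * Z ^ (m - k s) := by
      intro j
      rw [Finset.sum_mul]
      refine Finset.sum_congr ?_ ?_
      · ext s
        simp only [mem_filter, mem_univ, true_and, mem_erase, and_true, Fin.ext_iff]
      · intro s hs
        rw [mem_filter] at hs
        have h3 : (m - k s : ℕ) = (j : ℕ) := by
          have := congrArg Fin.val hs.2
          exact this
        have h4 : s ≠ s₀ := (mem_erase.1 hs.1).1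
        have h5 : c' s = c s := by
          rw [← hgc]
          exact Function.update_of_ne h4 _ _
        rw [h5, h3]
    rw [Finset.sum_congr rfl fun j _ => h2 j, Finset.sum_fiberwise]
  have hm0 : (0 : ℝ) < m := by
    have : 0 < m := by omega
    exact_mod_cast this
  have hpos : 0 ≤ 1 - 1 / (4 * (m : ℝ)) := by
    have h1 : 1 / (4 * (m : ℝ)) ≤ 1 := by
      rw [div_le_one (by positivity)]
      have : (1 : ℝ) ≤ m := by
        have : 1 ≤ m := by omega
        exact_mod_cast this
      linarith
    linarith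
  have h6 : (r : ℝ) * #C0 ≤ (r : ℝ) ^ Fintype.card ι := by exact_mod_cast hcard
  calc (#B : ℝ) ≤ #C0 * ((1 - 1 / (4 * m)) * r) := hB1
    _ = (1 - 1 / (4 * m)) * (r * #C0) := by ring
    _ ≤ (1 - 1 / (4 * m)) * (r : ℝ) ^ Fintype.card ι := mul_le_mul_of_nonneg_left h6 hpos

end Pool.Agent.Helper14.PH
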