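import Pool.Agent.Helper11.Cov.Main

/-!
# PH-Main: the lemmas of Helper11/Cov/Main.lean with the two parts of the admissibility condition separated

PROOFS.  Copy `integral_solution`, `vec_cong`, `vec_ne` (`hS.1` is `hS`; in `integral_solution` `0 < m` is now a hypothesis; in
`vec_ne` `hS.2 k hk` is `hS`).
-/

set_option autoImplicit false

namespace Pool.Agent.Helper14.PH

open WeierstrassCurve Finset Pool.Agent.Helper11.Cov

/-- First condition on the set of monomials. -/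
def Adm1 {n : ℕ} (m : ℕ) (d : Fin n → ℕ) (S : Finset (ℕ × (Fin n → ℕ × ℕ))) : Prop :=
  ∀ s ∈ S, 1 ≤ s.1 ∧ s.1 ≤ m ∧ ∀ i, 2 * (s.2 i).1 + 3 * (s.2 i).2 ≤ s.1 * d i

/-- Second condition on the set of monomials. -/
def Adm2 {n : ℕ} (k : ℕ) (d : Fin n → ℕ) (S : Finset (ℕ × (Fin n → ℕ × ℕ))) : Prop :=
  ∀ A : Finset (Fin n), ∃ s ∈ S, s.1 = k ∧
    ∀ i, if i ∈ A then 2 * (s.2 i).1 + 3 * (s.2 i).2 = k * d i else s.2 i = (0, 0)

section
variable {n : ℕ} {a b : Fin n → ℤ} {m : ℕ} {d : Fin n → ℕ} {S : Finset (ℕ × (Fin n → ℕ × ℕ))}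

theorem integral_solution1 (hm : 0 < m) (hS : Adm1 m d S) {c : S → ℤ}
    {P : ∀ i, (E (a i) (b i)).Point} {z : ℚ} (h : OnCover a b m d S c P z) {A B D : Fin n → ℤ}
    (hrep : ∀ i, IRep (P i) (A i) (B i) (D i)) :
    ∃ Z : ℤ, Z ^ m + ∑ s : S, c s * vec d S A B D s * Z ^ (m - s.1.1) = 0 := by
  set L : ℤ := ∏ i, dt (D i) ^ d i with hL
  have e1 : ∀ s : S, (L : ℚ) ^ s.1.1 * ∏ i, sec (s.1.1 * d i) (s.1.2 i) (P i) =
      (vec d S A B D s : ℤ) := by
    intro s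
    have hs := hS s.1 s.2
    rw [hL, vec]
    push_cast
    rw [← Finset.prod_pow, ← Finset.prod_mul_distrib]
    refine Finset.prod_congr rfl fun i _ => ?_
    rw [← sec_mono (hrep i) (hs.2.2 i), ← pow_mul, mul_comm (d i)]
  have e2 : (L * z) ^ m + ∑ s : S, (c s : ℚ) * (vec d S A B D s : ℤ) * (L * z) ^ (m - s.1.1) = 0 := by
    have : (L : ℚ) ^ m * (z ^ m + ∑ s : S, (c s : ℚ) * (∏ i, sec (s.1.1 * d i) (s.1.2 i) (P i)) *
        z ^ (m - s.1.1)) = 0 := by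
      rw [show z ^ m + ∑ s : S, (c s : ℚ) * (∏ i, sec (s.1.1 * d i) (s.1.2 i) (P i)) *
        z ^ (m - s.1.1) = 0 from h, mul_zero]
    rw [← this, mul_add, mul_pow, Finset.mul_sum]
    congr 1
    refine Finset.sum_congr rfl fun s _ => ?_
    have hs := hS s.1 s.2
    rw [← e1 s]
    have : (L : ℚ) ^ m = L ^ s.1.1 * L ^ (m - s.1.1) := by
      rw [← pow_add]; congr 1; omega
    rw [this, mul_pow]
    ring1
  -- `L z` is an integer
  set p : Polynomial ℤ := Polynomial.X ^ m +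
    ∑ s : S, Polynomial.C (c s * vec d S A B D s) * Polynomial.X ^ (m - s.1.1) with hp
  have hmonic : p.Monic := by
    rw [hp]
    apply Polynomial.monic_X_pow_add
    refine lt_of_le_of_lt (Polynomial.degree_sum_le _ _) ?_
    rw [Finset.sup_lt_iff (by exact_mod_cast WithBot.bot_lt_coe m)]
    intro s _
    refine lt_of_le_of_lt (Polynomial.degree_C_mul_X_pow_le _ _) ?_
    have := hS s.1 s.2
    exact_mod_cast (by omega : m - s.1.1 < m)
  have hroot : Polynomial.aeval (L * z : ℚ) p = 0 := by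
    rw [hp, map_add, map_pow, Polynomial.aeval_X, map_sum]
    simp only [map_mul, map_pow, Polynomial.aeval_C, Polynomial.aeval_X]
    rw [← e2]
    congr 1
  obtain ⟨Z, hZ⟩ := isInteger_of_is_root_of_monic hmonic hroot
  refine ⟨Z, ?_⟩
  have hZ' : (Z : ℚ) = L * z := by rw [← hZ]; simp
  rw [← hZ'] at e2
  exact_mod_cast e2

theorem vec_cong1 (hS : Adm1 m d S) {l : ℕ} [Fact l.Prime] {P P' : ∀ i, (E (a i) (b i)).Point}
    {A B D A' B' D' : Fin n → ℤ} (hrep : ∀ i, IRep (P i) (A i) (B i) (D i))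
    (hrep' : ∀ i, IRep (P' i) (A' i) (B' i) (D' i)) (hH : ∀ i, InH l (P' i - P i)) :
    ∃ u : ZMod l, u ≠ 0 ∧ ∀ s : S, vec d S (fun i => (A' i : ZMod l)) (fun i => (B' i : ZMod l))
      (fun i => (D' i : ZMod l)) s =
      u ^ s.1.1 * vec d S (fun i => (A i : ZMod l)) (fun i => (B i : ZMod l))
      (fun i => (D i : ZMod l)) s := by
  choose u hu hA hB hD using fun i => (hrep i).cong (hrep' i) (hH i)
  refine ⟨∏ i, u i ^ d i, Finset.prod_ne_zero_iff.mpr fun i _ => pow_ne_zero _ (hu i), ?_⟩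
  intro s
  have hs := hS s.1 s.2
  rw [vec, vec, ← Finset.prod_pow, ← Finset.prod_mul_distrib]
  refine Finset.prod_congr rfl fun i _ => ?_
  rw [hA i, hB i, hD i, mono_scale (hs.2.2 i), ← pow_mul, mul_comm (d i)]

theorem vec_ne1 {l : ℕ} [hl : Fact l.Prime] {P : ∀ i, (E (a i) (b i)).Point}
    {A B D : Fin n → ℤ} (hrep : ∀ i, IRep (P i) (A i) (B i) (D i)) {k : ℕ} (hS : Adm2 k d S) :
    ∃ s : S, s.1.1 = k ∧
      vec d S (fun i => (A i : ZMod l)) (fun i => (B i : ZMod l)) (fun i => (D i : ZMod l)) s ≠ 0 := by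
  classical
  have hl1 : ¬ IsUnit (l : ℤ) := by
    rw [Int.isUnit_iff]
    have := hl.out.two_le
    omega
  have nz : ∀ n : ℤ, ¬ (l : ℤ) ∣ n → (n : ZMod l) ≠ 0 := fun n hn h0 =>
    hn ((ZMod.intCast_zmod_eq_zero_iff_dvd n l).mp h0)
  obtain ⟨s, hs, hsk, hs2⟩ := hS (univ.filter fun i => (l : ℤ) ∣ D i)
  refine ⟨⟨s, hs⟩, hsk, ?_⟩
  rw [vec]
  refine Finset.prod_ne_zero_iff.mpr fun i _ => ?_
  have h2 := hs2 i
  simp only [mem_filter, mem_univ, true_and] at h2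
  unfold mono
  split_ifs at h2 with h3
  · have hA := nz _ fun h0 => hl1 ((hrep i).1.isUnit_of_dvd' h0 h3)
    have hB := nz _ fun h0 => hl1 ((hrep i).2.1.isUnit_of_dvd' h0 h3)
    simp only
    rw [hsk, h2, Nat.sub_self, pow_zero, mul_one]
    exact mul_ne_zero (pow_ne_zero _ hA) (pow_ne_zero _ hB)
  · have hD := nz _ h3
    simp only
    rw [h2, pow_zero, pow_zero, one_mul, one_mul]
    exact pow_ne_zero _ hD

end

end Pool.Agent.Helper14.PH
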