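import Pool.Agent.Helper14.PG.Classes
import Pool.Agent.Helper14.PS.Covers
import Pool.Agent.Helper14.PF.FamQ
import Pool.Agent.Helper14.PH.Main
import Pool.Agent.Helper14.PH.Count
import Pool.Agent.Helper11.Cov.Geo2

/-!
# PH-Covers: complete linear systems, rational coefficients, with primes `r = 1` modulo `m`
-/

open AlgebraicGeometry CategoryTheory

set_option autoImplicit false

namespace Pool.Agent.Helper14.PH

open WeierstrassCurve Finset Pool.Agent.Helper11.Cov Pool.Agent.Helper14.PS Pool.Agent.Helper14.PG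

/-- `(P, z)` is a rational point of the cover with the rational coefficient vector `c`. -/
def OnCoverQ {n : ℕ} (a b : Fin n → ℤ) (m : ℕ) (d : Fin n → ℕ) (S : Finset (ℕ × (Fin n → ℕ × ℕ)))
    (c : S → ℚ) (P : ∀ i, (E (a i) (b i)).Point) (z : ℚ) : Prop :=
  z ^ m + ∑ s : S, c s * (∏ i, sec (s.1.1 * d i) (s.1.2 i) (P i)) * z ^ (m - s.1.1) = 0

section
variable {n : ℕ} {a b : Fin n → ℤ} {m : ℕ} {d : Fin n → ℕ} {S : Finset (ℕ × (Fin n → ℕ × ℕ))}

/-- One half of the invariance of the set of bad residues under scaling. -/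
theorem badSet_mono1 (hS : Adm1 m d S) {l : ℕ} [Fact l.Prime] {v v' : S → ZMod l} {u : ZMod l}
    (hv : ∀ s : S, v' s = u ^ s.1.1 * v s) {c : S → ZMod l} (hc : c ∈ BadSet m S l v) :
    c ∈ BadSet m S l v' := by
  rw [mem_BadSet] at hc ⊢
  obtain ⟨Z, hZ⟩ := hc
  refine ⟨u * Z, ?_⟩
  have e : (u * Z) ^ m + ∑ s : S, c s * v' s * (u * Z) ^ (m - s.1.1) =
      u ^ m * (Z ^ m + ∑ s : S, c s * v s * Z ^ (m - s.1.1)) := by
    rw [mul_add, mul_pow, Finset.mul_sum]
    congr 1
    refine Finset.sum_congr rfl fun s _ => ?_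
    have hs := hS s.1 s.2
    rw [hv s]
    have : u ^ m = u ^ s.1.1 * u ^ (m - s.1.1) := by
      rw [← pow_add]; congr 1; omega
    rw [this, mul_pow]
    ring
  rw [e, hZ, mul_zero]

theorem badSet_scale1 (hS : Adm1 m d S) {l : ℕ} [Fact l.Prime] {v v' : S → ZMod l} {u : ZMod l}
    (hu : u ≠ 0) (hv : ∀ s : S, v' s = u ^ s.1.1 * v s) :
    BadSet m S l v = BadSet m S l v' := by
  ext c
  constructor
  · exact badSet_mono1 hS hv
  · refine badSet_mono1 hS (u := u⁻¹) fun s => ?_
    rw [hv s, ← mul_assoc, ← mul_pow, inv_mul_cancel₀ hu, one_pow, one_mul]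

/-- The number of bad residues. -/
theorem card_badSet1 (hm : 2 ≤ m) (hS : Adm1 m d S) (hSm : Adm2 m d S) {m' : ℕ}
    (h' : (2 < m → Adm2 (m - 1) d S) ∨ m' = m) {l : ℕ} [Fact l.Prime] (hl : 3 ≤ l)
    (hml : m' ∣ l - 1) {P : ∀ i, (E (a i) (b i)).Point} {A B D : Fin n → ℤ}
    (hrep : ∀ i, IRep (P i) (A i) (B i) (D i)) :
    (#(BadSet m S l (vec d S (fun i => (A i : ZMod l)) (fun i => (B i : ZMod l))
      (fun i => (D i : ZMod l)))) : ℝ) ≤ (1 - 1 / (4 * m)) * (l : ℝ) ^ Fintype.card S := by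
  classical
  have hm' : (2:ℝ) ≤ m := by exact_mod_cast hm
  obtain ⟨s₀, hs₀, hv₀⟩ := vec_ne1 (l := l) hrep hSm
  set vv := vec d S (fun i => (A i : ZMod l)) (fun i => (B i : ZMod l)) (fun i => (D i : ZMod l))
    with hvv
  rcases h' with h1 | rfl
  · have h2 : (2 : ZMod l) ≠ 0 := by
      intro h0
      have : ((2 : ℕ) : ZMod l) = 0 := by exact_mod_cast h0
      rw [ZMod.natCast_eq_zero_iff] at this
      have := Nat.le_of_dvd (by norm_num) this
      omega
    have := count_bad' (F := ZMod l) (ι := S) h2 (by rw [ZMod.card]; exact hl) hm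
      (fun s => s.1.1) (fun s => ⟨(hS s.1 s.2).1, (hS s.1 s.2).2.1⟩) vv s₀ hs₀ hv₀
      (fun h2m => by
        obtain ⟨s₁, hs₁, hv₁⟩ := vec_ne1 (l := l) hrep (h1 h2m)
        exact ⟨s₁, by omega, hv₁⟩) (BadSet m S l vv) (fun c hc => mem_BadSet.mp hc)
    have h5 : (3 * m : ℝ) * #(BadSet m S l vv) ≤ (3 * m - 2 : ℝ) * (l : ℝ) ^ Fintype.card S := by
      have h6 := (Nat.cast_le (α := ℝ)).mpr this
      have h7 : 2 ≤ 3 * m := by omega
      push_cast [h7] at h6
      rw [Fintype.card_fun, ZMod.card] at h6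
      push_cast at h6
      exact h6
    have hm0 : (0:ℝ) < 3 * m := by positivity
    have h8 : (1 - 2 / (3 * m) : ℝ) * (l : ℝ) ^ Fintype.card S =
        ((3 * m - 2 : ℝ) * (l : ℝ) ^ Fintype.card S) / (3 * m) := by
      field_simp
    have h9 : (#(BadSet m S l vv) : ℝ) ≤ (1 - 2 / (3 * m)) * (l : ℝ) ^ Fintype.card S := by
      rw [h8, le_div_iff₀ hm0]
      linarith
    refine h9.trans ?_
    apply mul_le_mul_of_nonneg_right _ (by positivity)
    have h10 : (1 : ℝ) / (4 * m) ≤ 2 / (3 * m) := by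
      rw [div_le_div_iff₀ (by positivity) (by positivity)]
      nlinarith
    linarith
  · exact count_bad1 hm hl hml (fun s : S => s.1.1) (fun s => ⟨(hS s.1 s.2).1, (hS s.1 s.2).2.1⟩)
      vv s₀ hs₀ hv₀ (BadSet m' S l vv) (fun c hc => mem_BadSet.mp hc)

/-- Clearing denominators. -/
theorem clear_cover {F : Type*} [Field F] (hS : Adm1 m d S) {e : ℕ} (he : (e : F) ≠ 0)
    (u : S → ℤ) (X : S → F) (z : F) :
    ((e : F) * z) ^ m + ∑ s : S, (((e : ℤ) ^ (s.1.1 - 1) * u s : ℤ) : F) * X s *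
      ((e : F) * z) ^ (m - s.1.1) =
    (e : F) ^ m * (z ^ m + ∑ s : S, ((u s : F) / e) * X s * z ^ (m - s.1.1)) := by
  rw [mul_add, Finset.mul_sum, mul_pow]
  congr 1
  refine Finset.sum_congr rfl fun s _ => ?_
  obtain ⟨h1, h2, -⟩ := hS s.1 s.2
  have e1 : (e : F) ^ m = (e : F) ^ (s.1.1 - 1) * e * (e : F) ^ (m - s.1.1) := by
    rw [← pow_succ, ← pow_add]
    congr 1
    omega
  rw [e1, mul_pow]
  push_cast
  field_simp

theorem onCoverQ_iff (hS : Adm1 m d S) {e : ℕ} (he : 1 ≤ e) {u : S → ℤ}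
    {P : ∀ i, (E (a i) (b i)).Point} {z : ℚ} :
    OnCoverQ a b m d S (fun s => (u s : ℚ) / e) P z ↔
      OnCover a b m d S (fun s => (e : ℤ) ^ (s.1.1 - 1) * u s) P ((e : ℚ) * z) := by
  have he' : (e : ℚ) ≠ 0 := by
    have : e ≠ 0 := by omega
    exact_mod_cast this
  unfold OnCoverQ OnCover
  rw [clear_cover hS he' u (fun s => ∏ i, sec (s.1.1 * d i) (s.1.2 i) (P i)) z]
  constructor
  · intro h0
    rw [h0, mul_zero]
  · intro h0
    exact (mul_eq_zero.mp h0).resolve_left (pow_ne_zero _ he')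

/-- **Power saving for complete linear systems**, in every box of side `N ≥ N₀`, rational coefficients. -/
theorem covers_power7 {m' : ℕ} (hK : Key7 m' a b) (hm : 2 ≤ m) (hS : Adm1 m d S)
    (hSm : Adm2 m d S) (h' : (2 < m → Adm2 (m - 1) d S) ∨ m' = m) : ∃ N₀ : ℕ, ∀ N : ℕ, N₀ ≤ N →
    ∀ q : ℕ, 1 ≤ q → q ≤ N →
    ∀ v : S → ℤ, (Nat.card {u : S → ℤ // (∃ P z, OnCoverQ a b m d S (fun s => (u s : ℚ) / q) P z) ∧
      ∀ s, v s ≤ u s ∧ u s < v s + N} : ℝ) ≤ (N : ℝ) ^ ((#S : ℝ) - 1 / 2000) := by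
  classical
  have hm' : (2:ℝ) ≤ m := by exact_mod_cast hm
  obtain ⟨s₀, hs₀, -⟩ := hSm ∅
  have hk : 1 ≤ Fintype.card S := by
    rw [Fintype.card_coe]
    exact Finset.card_pos.mpr ⟨s₀, hs₀⟩
  have hθ : (0:ℝ) < 1 / (4 * m) ∧ 1 / (4 * (m:ℝ)) < 1 :=
    ⟨by positivity, by rw [div_lt_one (by positivity)]; linarith⟩
  obtain ⟨N₀, hN₀⟩ := family_bound7 hK hk (θ := 1 - 1 / (4 * m)) (by linarith [hθ.2])
    (by linarith [hθ.1]) 3
  refine ⟨N₀, fun N hN q hq hqN v => ?_⟩
  choose Ac Bc Dc hrep using fun (i : Fin n) (Q : (E (a i) (b i)).Point) => exists_irep Q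
  let e : S ≃ Fin (Fintype.card S) := Fintype.equivFin S
  let vP : (∀ i, (E (a i) (b i)).Point) → ∀ l : ℕ, S → ZMod l := fun P l =>
    vec d S (fun i => (Ac i (P i) : ZMod l)) (fun i => (Bc i (P i) : ZMod l))
      (fun i => (Dc i (P i) : ZMod l))
  let Bd : (∀ i, (E (a i) (b i)).Point) → ∀ r : ℕ, Finset (Fin (Fintype.card S) → ZMod r) :=
    fun P r => if hr : r.Prime then
      haveI : Fact r.Prime := ⟨hr⟩
      Finset.univ.filter (fun t => (fun s : S => (q : ZMod r) ^ (s.1.1 - 1) *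
        (((v s : ℤ) : ZMod r) + t (e s))) ∈ BadSet m S r (vP P r)) else ∅
  let On : (Fin (Fintype.card S) → ℤ) → (∀ i, (E (a i) (b i)).Point) → Prop := fun t P =>
    ∃ z, OnCover a b m d S (fun s => (q : ℤ) ^ (s.1.1 - 1) * (v s + t (e s))) P z
  have h1 := hN₀ N hN q hq hqN On Bd ?_ ?_ ?_
  · have h2 : Nat.card {u : S → ℤ // (∃ P z, OnCoverQ a b m d S (fun s => (u s : ℚ) / q) P z) ∧
        ∀ s, v s ≤ u s ∧ u s < v s + N} ≤ #{t ∈ Bx (Fintype.card S) N | ∃ P, On t P} := by
      have h3 := Nat.card_le_card_of_injective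
        (fun c : {u : S → ℤ // (∃ P z, OnCoverQ a b m d S (fun s => (u s : ℚ) / q) P z) ∧
            ∀ s, v s ≤ u s ∧ u s < v s + N} =>
          (⟨fun i => c.1 (e.symm i) - v (e.symm i), by
            rw [Finset.mem_filter, mem_Bx]
            refine ⟨fun i => ?_, ?_⟩
            · have := c.2.2 (e.symm i)
              omega
            · obtain ⟨P, z, hz⟩ := c.2.1
              refine ⟨P, (q : ℚ) * z, ?_⟩
              have e1 : (fun s : S => (q : ℤ) ^ (s.1.1 - 1) *
                  (v s + (c.1 (e.symm (e s)) - v (e.symm (e s))))) =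
                  fun s : S => (q : ℤ) ^ (s.1.1 - 1) * c.1 s := by
                funext s
                rw [e.symm_apply_apply]
                ring
              rw [e1]
              exact (onCoverQ_iff hS hq).mp hz⟩ :
                ↥({t ∈ Bx (Fintype.card S) N | ∃ P, On t P})))
        (fun c c' hcc => by
          apply Subtype.ext
          funext s
          have h4 := congrFun (congrArg Subtype.val hcc) (e s)
          simp only [e.symm_apply_apply] at h4
          omega)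
      refine h3.trans (le_of_eq ?_)
      rw [Nat.card_eq_fintype_card, Fintype.card_coe]
    have h5 : ((Fintype.card S : ℕ) : ℝ) = (#S : ℝ) := by rw [Fintype.card_coe]
    rw [h5] at h1
    exact le_trans (by exact_mod_cast h2) h1
  · intro P r hr h3 hnd h4
    have hF : Fact r.Prime := ⟨hr⟩
    have hq0 : (q : ZMod r) ≠ 0 := by
      intro h0
      exact hnd ((ZMod.natCast_eq_zero_iff _ _).mp h0)
    simp only [Bd, dif_pos hr]
    refine le_trans ?_ (card_badSet1 hm hS hSm h' (l := r) h3 h4.2 (fun i => hrep i (P i)))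
    have h6 : #(Finset.univ.filter (fun t : Fin (Fintype.card S) → ZMod r =>
        (fun s : S => (q : ZMod r) ^ (s.1.1 - 1) * (((v s : ℤ) : ZMod r) + t (e s))) ∈
          BadSet m S r (vP P r))) ≤ #(BadSet m S r (vP P r)) := by
      refine Finset.card_le_card_of_injOn (fun t => fun s : S => (q : ZMod r) ^ (s.1.1 - 1) *
        (((v s : ℤ) : ZMod r) + t (e s))) ?_ ?_
      · intro t ht
        rw [Finset.mem_coe, Finset.mem_filter] at ht
        exact ht.2
      · intro t _ t' _ htt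
        funext i
        have := congrFun htt (e.symm i)
        simp only [e.apply_symm_apply] at this
        exact add_left_cancel (mul_left_cancel₀ (pow_ne_zero _ hq0) this)
    exact_mod_cast h6
  · intro t P r hr h3 hnd h4 hOn
    have hF : Fact r.Prime := ⟨hr⟩
    obtain ⟨z, hz⟩ := hOn
    simp only [Bd, dif_pos hr]
    rw [Finset.mem_filter]
    refine ⟨Finset.mem_univ _, ?_⟩
    rw [mem_BadSet]
    obtain ⟨Z, hZ⟩ := integral_solution1 (by omega) hS hz (fun i => hrep i (P i))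
    refine ⟨(Z : ZMod r), ?_⟩
    have := congrArg (Int.cast : ℤ → ZMod r) hZ
    push_cast at this
    rw [← this]
    congr 1
    refine Finset.sum_congr rfl fun s _ => ?_
    simp only [vP, vec, mono]
    push_cast
    rfl
  · intro P P' r hF h3 hnd h4 hH
    have hr : r.Prime := hF.out
    simp only [Bd, dif_pos hr]
    obtain ⟨u, hu, hv⟩ := vec_cong1 hS (l := r) (fun i => hrep i (P i)) (fun i => hrep i (P' i)) hH
    have := badSet_scale1 hS hu hv
    ext t
    rw [Finset.mem_filter, Finset.mem_filter]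
    simp only [Finset.mem_univ, true_and]
    have e2 : BadSet m S r (vP P r) = BadSet m S r (vP P' r) := this
    rw [e2]

/-- If a variety dominating the cover has dense rational points, the cover has a rational point. -/
theorem exists_onCoverQ (hg : ∀ i, Good (a i) (b i)) (hS : Adm1 m d S) {c : S → ℚ}
    {V : Scheme.{0}} [IsIntegral V]
    (f : V ⟶ Spec (CommRingCat.of ℚ)) (x y : Fin n → V.functionField) (z : V.functionField)
    (hxy : ∀ i, y i ^ 2 = x i ^ 3 + (a i : V.functionField) * x i + (b i : V.functionField))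
    (hz : z ^ m + ∑ s : S, (c s : V.functionField) *
      (∏ i, x i ^ (s.1.2 i).1 * y i ^ (s.1.2 i).2) * z ^ (m - s.1.1) = 0)
    (hdense : Dense (Pool.Agent.Helper11.rationalPoints f)) : ∃ P z, OnCoverQ a b m d S c P z := by
  classical
  -- characteristic zero
  have hchar : CharZero V.functionField := by
    obtain ⟨R, _, ι, v, φ, hinj, hv⟩ := exists_specialisation_fintype f
      (α := Fin 0) (fun o => o.elim0) hdense
    apply charZero_of_inj_zero
    intro j hj
    have e1 : (j : R) = 0 := by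
      apply hinj
      rw [map_natCast, map_zero]
      exact hj
    have e2 := congrArg φ e1
    rw [map_natCast, map_zero] at e2
    exact_mod_cast e2
  -- a common denominator
  set e : ℕ := ∏ i : S, (c i).den with he
  have he1 : 1 ≤ e := Nat.succ_le_of_lt (Finset.prod_pos fun i _ => (c i).den_pos)
  have hA : ∀ i : S, ∃ A : ℤ, c i = (A : ℚ) / e := by
    intro i
    have h1 : (c i).den ∣ e := Finset.dvd_prod_of_mem (fun i : S => (c i).den) (Finset.mem_univ i)
    obtain ⟨w, hw⟩ := h1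
    have hd0 : ((c i).den : ℚ) ≠ 0 := by exact_mod_cast (c i).den_ne_zero
    have hw0 : (w : ℚ) ≠ 0 := by
      intro h0
      have : w = 0 := by exact_mod_cast h0
      rw [this, mul_zero] at hw
      omega
    refine ⟨(c i).num * w, ?_⟩
    rw [hw]
    push_cast
    rw [mul_div_mul_right _ _ hw0]
    exact (Rat.num_div_den (c i)).symm
  choose A hA using hA
  have hc : c = fun i => (A i : ℚ) / e := funext hA
  have he' : (e : V.functionField) ≠ 0 := by
    have : e ≠ 0 := by omega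
    exact_mod_cast this
  have heQ : (e : ℚ) ≠ 0 := by
    have : e ≠ 0 := by omega
    exact_mod_cast this
  have hcl := clear_cover hS he' A
    (fun s : S => ∏ i, x i ^ (s.1.2 i).1 * y i ^ (s.1.2 i).2) z
  have hcast : ∀ i : S, (c i : V.functionField) = (A i : V.functionField) / e := by
    intro i
    rw [hA i]
    push_cast
    rfl
  simp only [hcast] at hz
  rw [hz, mul_zero] at hcl
  obtain ⟨P, z', hP⟩ := exists_onCover hg (d := d) f x y ((e : V.functionField) * z) hxy hcl hdense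
  refine ⟨P, z' / (e : ℚ), ?_⟩
  rw [hc, onCoverQ_iff hS he1]
  have e1 : (e : ℚ) * (z' / (e : ℚ)) = z' := by
    field_simp
  rw [e1]
  exact hP

end

end Pool.Agent.Helper14.PH
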